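import Pool.Agent.Helper78.ZM.Stmts

/-!
Project ZM (MP_ccc3c9_an), module Z7: the mass of the first function.
-/

set_option autoImplicit false

open MeasureTheory Filter Topology
open scoped ContDiff Real ENNReal ComplexOrder

namespace Pool.Agent.Helper87.ZM

open Pool.Agent.Helper78.ZM

/-- the annulus -/
def ann (N : ℕ) (τ : ℝ) : Set ℂ := {z | τ ≤ ‖z‖ ^ (2 * N) ∧ ‖z‖ ^ (2 * N) ≤ 2 * τ}

/-- the radial function integrated over the annulus -/
noncomputable def gg (N : ℕ) (τ : ℝ) : ℂ → ℝ :=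
  (ann N τ).indicator (fun z => ‖z‖ ^ (2 * N - 2))

theorem exists_root (N : ℕ) (hN : 1 ≤ N) (τ : ℝ) (hτ : 0 < τ) :
    ∃ α : ℝ, 0 < α ∧ α ^ (2 * N) = τ := by
  refine ⟨τ ^ (((2 * N : ℕ) : ℝ)⁻¹), Real.rpow_pos_of_pos hτ _, ?_⟩
  exact Real.rpow_inv_natCast_pow hτ.le (by omega)

theorem gg_integrable (N : ℕ) (hN : 1 ≤ N) (τ : ℝ) (hτ : 0 < τ) : Integrable (gg N τ) := by
  obtain ⟨β, hβ, hβN⟩ := exists_root N hN (2 * τ) (by linarith)
  have hclosed : IsClosed (ann N τ) := by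
    apply IsClosed.inter
    · exact isClosed_le continuous_const (continuous_norm.pow _)
    · exact isClosed_le (continuous_norm.pow _) continuous_const
  have hcomp : IsCompact (ann N τ) := by
    apply (isCompact_closedBall (0 : ℂ) β).of_isClosed_subset hclosed
    rintro z ⟨_, hz⟩
    rw [mem_closedBall_zero_iff]
    rw [← hβN] at hz
    exact (pow_le_pow_iff_left₀ (norm_nonneg _) hβ.le (by omega)).1 hz
  unfold gg
  rw [integrable_indicator_iff hclosed.measurableSet]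
  exact (continuous_norm.pow _).continuousOn.integrableOn_compact hcomp

theorem gg_integral (N : ℕ) (hN : 1 ≤ N) (τ : ℝ) (hτ : 0 < τ) :
    ∫ z, gg N τ z = π * τ / N := by
  obtain ⟨α, hα, hαN⟩ := exists_root N hN τ hτ
  obtain ⟨β, hβ, hβN⟩ := exists_root N hN (2 * τ) (by linarith)
  have hαβ : α ≤ β := by
    refine (pow_le_pow_iff_left₀ hα.le hβ.le (n := 2 * N) (by omega)).1 ?_
    rw [hαN, hβN]; linarith
  let S : Set ℝ := {y | τ ≤ y ^ (2 * N) ∧ y ^ (2 * N) ≤ 2 * τ}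
  have hS : MeasurableSet S := by
    apply IsClosed.measurableSet
    apply IsClosed.inter
    · exact isClosed_le continuous_const (continuous_id.pow _)
    · exact isClosed_le (continuous_id.pow _) continuous_const
  have h1 : ∀ z : ℂ, gg N τ z = S.indicator (fun y => y ^ (2 * N - 2)) ‖z‖ := by
    intro z
    unfold gg
    by_cases hz : z ∈ ann N τ
    · rw [Set.indicator_of_mem hz, Set.indicator_of_mem (show ‖z‖ ∈ S from hz)]
    · rw [Set.indicator_of_notMem hz, Set.indicator_of_notMem (show ‖z‖ ∉ S from hz)]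
  simp_rw [h1]
  rw [integral_fun_norm_addHaar (μ := (volume : Measure ℂ))]
  have hdim : Module.finrank ℝ ℂ = 2 := Complex.finrank_real_complex
  have hball : (volume : Measure ℂ).real (Metric.ball 0 1) = π := by
    rw [Measure.real, Complex.volume_ball]
    simp
  rw [hdim, hball]
  have h2 : ∫ y in Set.Ioi (0 : ℝ), y ^ (2 - 1) • S.indicator (fun y => y ^ (2 * N - 2)) y
      = τ / (2 * N) := by
    have h3 : ∀ y : ℝ, y ^ (2 - 1) • S.indicator (fun y => y ^ (2 * N - 2)) y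
        = S.indicator (fun y => y ^ (2 * N - 1)) y := by
      intro y
      by_cases hy : y ∈ S
      · rw [Set.indicator_of_mem hy, Set.indicator_of_mem hy, smul_eq_mul, ← pow_add]
        congr 1
        omega
      · rw [Set.indicator_of_notMem hy, Set.indicator_of_notMem hy, smul_zero]
    simp_rw [h3]
    rw [setIntegral_indicator hS]
    have h4 : Set.Ioi (0 : ℝ) ∩ S = Set.Icc α β := by
      ext y
      constructor
      · rintro ⟨hy0, hy1, hy2⟩
        have hy0' : (0 : ℝ) < y := hy0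
        rw [← hαN] at hy1
        rw [← hβN] at hy2
        exact ⟨(pow_le_pow_iff_left₀ hα.le hy0'.le (by omega)).1 hy1,
          (pow_le_pow_iff_left₀ hy0'.le hβ.le (by omega)).1 hy2⟩
      · rintro ⟨hy1, hy2⟩
        have hy0' : (0 : ℝ) < y := lt_of_lt_of_le hα hy1
        refine ⟨hy0', ?_, ?_⟩
        · rw [← hαN]; exact pow_le_pow_left₀ hα.le hy1 _
        · rw [← hβN]; exact pow_le_pow_left₀ hy0'.le hy2 _
    rw [h4, integral_Icc_eq_integral_Ioc, ← intervalIntegral.integral_of_le hαβ, integral_pow]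
    have h5 : 2 * N - 1 + 1 = 2 * N := by omega
    rw [h5, hαN, hβN]
    have h6 : ((2 * N - 1 : ℕ) : ℝ) + 1 = 2 * N := by
      have : ((2 * N - 1 + 1 : ℕ) : ℝ) = ((2 * N : ℕ) : ℝ) := by rw [h5]
      push_cast at this
      rw [← this]
    rw [h6]
    ring
  rw [h2]
  have hN' : (N : ℝ) ≠ 0 := by positivity
  simp only [nsmul_eq_mul, smul_eq_mul]
  push_cast
  field_simp

theorem jac_entry {n : ℕ} (N : ℕ) (x : Cn n) :
    jacM (fun (y : Cn n) j => y j ^ N) x = Matrix.diagonal (fun j => (N : ℂ) * x j ^ (N - 1)) := by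
  ext j k
  unfold jacM
  rw [Matrix.of_apply]
  have h1 : HasFDerivAt (fun y : Cn n => y j) (ContinuousLinearMap.proj (R := ℂ) (φ := fun _ => ℂ) j) x :=
    (ContinuousLinearMap.proj (R := ℂ) (φ := fun _ : Fin n => ℂ) j).hasFDerivAt
  have h2 := h1.pow N
  rw [h2.fderiv]
  by_cases hjk : j = k
  · subst hjk
    simp
  · rw [Matrix.diagonal_apply_ne _ hjk]
    simp [hjk]

theorem density_eq (h6 : Z6Stmt) (n N : ℕ) (hN : 1 ≤ N) (τ c : ℝ) (hτ : 0 < τ) (x : Cn n) :
    maDensity (lg (fun y j => y j ^ N) τ (1 / (2 * (N : ℝ))) c) x =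
      (n.factorial : ℝ) * (N / π) ^ n * τ * (∏ j, ‖x j‖ ^ (2 * N - 2)) /
        (∑ j, ‖x j‖ ^ (2 * N) + τ) ^ (n + 1) := by
  have hsm : ∀ j : Fin n, ContDiff ℂ ∞ (fun x : Cn n => x j ^ N) := by
    intro j
    exact (contDiff_apply ℂ ℂ j).pow N
  obtain ⟨_, hdet⟩ := h6 n (fun y j => y j ^ N) hsm τ (1 / (2 * (N : ℝ))) c hτ x
  unfold maDensity
  rw [hdet, Complex.ofReal_re, jac_entry, Matrix.det_diagonal]
  have h1 : ‖∏ j : Fin n, (N : ℂ) * x j ^ (N - 1)‖ ^ 2
      = (N : ℝ) ^ (2 * n) * ∏ j, ‖x j‖ ^ (2 * N - 2) := by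
    rw [norm_prod, ← Finset.prod_pow]
    have h2 : ∀ j : Fin n, ‖(N : ℂ) * x j ^ (N - 1)‖ ^ 2 = (N : ℝ) ^ 2 * ‖x j‖ ^ (2 * N - 2) := by
      intro j
      rw [norm_mul, norm_pow, mul_pow, ← pow_mul, Complex.norm_natCast]
      congr 2
      omega
    simp_rw [h2]
    rw [Finset.prod_mul_distrib, Finset.prod_const, Finset.card_univ, Fintype.card_fin, ← pow_mul]
  have h3 : ∀ j : Fin n, ‖x j ^ N‖ ^ 2 = ‖x j‖ ^ (2 * N) := by
    intro j
    rw [norm_pow, ← pow_mul, mul_comm]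
  simp_rw [h3]
  rw [h1]
  have hN' : (N : ℝ) ≠ 0 := by positivity
  have h4 : (2 / π : ℝ) ^ n * ((1 / (2 * (N : ℝ))) ^ n * (N : ℝ) ^ (2 * n)) = (N / π) ^ n := by
    rw [pow_mul, ← mul_pow, ← mul_pow]
    congr 1
    field_simp
  rw [← h4]
  ring

/-- Z7 -/
theorem z7 (h6 : Z6Stmt) : Z7Stmt := by
  intro n N τ c hn hN hτ hτN χ hχc hχs hχ0 hχ1
  have hN' : (0 : ℝ) < N := by exact_mod_cast hN
  have hn' : (1 : ℝ) ≤ n := by exact_mod_cast hn
  have hπ := Real.pi_pos
  simp_rw [density_eq h6 n N hN τ c hτ]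
  have hSpos : ∀ x : Cn n, 0 < ∑ j, ‖x j‖ ^ (2 * N) + τ := by
    intro x
    have : 0 ≤ ∑ j, ‖x j‖ ^ (2 * N) := Finset.sum_nonneg (fun j _ => by positivity)
    linarith
  let ρ : Cn n → ℝ := fun x => (n.factorial : ℝ) * (N / π) ^ n * τ *
    (∏ j, ‖x j‖ ^ (2 * N - 2)) / (∑ j, ‖x j‖ ^ (2 * N) + τ) ^ (n + 1)
  have hρc : Continuous ρ := by
    apply Continuous.div
    · fun_prop
    · fun_prop
    · intro x
      exact pow_ne_zero _ (hSpos x).ne'
  have hρ0 : ∀ x, 0 ≤ ρ x := by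
    intro x
    have := hSpos x
    have h2 : 0 ≤ ∏ j, ‖x j‖ ^ (2 * N - 2) := Finset.prod_nonneg (fun j _ => by positivity)
    show 0 ≤ _ / _
    positivity
  have hint : Integrable (fun x => χ x * ρ x) :=
    (hχc.mul hρc).integrable_of_hasCompactSupport hχs.mul_right
  let C : ℝ := (n.factorial : ℝ) * (N / π) ^ n / ((2 * n + 1) ^ (n + 1) * τ ^ n)
  have hC0 : 0 ≤ C := by positivity
  have hlow : ∀ x : Cn n, C * ∏ j, gg N τ (x j) ≤ χ x * ρ x := by
    intro x
    by_cases hx : ∀ j, x j ∈ ann N τ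
    · have h1 : ∀ j, gg N τ (x j) = ‖x j‖ ^ (2 * N - 2) := fun j => Set.indicator_of_mem (hx j) _
      simp_rw [h1]
      have hle : ∀ j, ‖x j‖ ≤ 1 / (4 * n) := by
        intro j
        have h2 := (hx j).2.trans hτN
        exact (pow_le_pow_iff_left₀ (norm_nonneg _) (by positivity) (by omega)).1 h2
      have hnrm : nrm x ≤ 1 / 2 := by
        unfold nrm
        apply Real.sqrt_le_iff.2
        refine ⟨by norm_num, ?_⟩
        calc ∑ j, ‖x j‖ ^ 2 ≤ ∑ _j : Fin n, (1 / (4 * (n : ℝ))) ^ 2 :=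
              Finset.sum_le_sum (fun j _ => pow_le_pow_left₀ (norm_nonneg _) (hle j) 2)
          _ = (n : ℝ) * (1 / (4 * (n : ℝ))) ^ 2 := by simp
          _ = 1 / (16 * n) := by field_simp; norm_num
          _ ≤ (1 / 2) ^ 2 := by
              rw [div_le_iff₀ (by positivity)]
              nlinarith
      rw [hχ1 x hnrm, one_mul]
      have hS : ∑ j, ‖x j‖ ^ (2 * N) + τ ≤ (2 * n + 1) * τ := by
        have h2 : ∑ j, ‖x j‖ ^ (2 * N) ≤ ∑ _j : Fin n, (2 * τ) :=
          Finset.sum_le_sum (fun j _ => (hx j).2)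
        rw [Finset.sum_const, Finset.card_univ, Fintype.card_fin, nsmul_eq_mul] at h2
        linarith
      have hP : 0 ≤ ∏ j, ‖x j‖ ^ (2 * N - 2) := Finset.prod_nonneg (fun j _ => by positivity)
      have h3 : C * ∏ j, ‖x j‖ ^ (2 * N - 2) = (n.factorial : ℝ) * (N / π) ^ n * τ *
          (∏ j, ‖x j‖ ^ (2 * N - 2)) / ((2 * n + 1) * τ) ^ (n + 1) := by
        show (n.factorial : ℝ) * (N / π) ^ n / ((2 * n + 1) ^ (n + 1) * τ ^ n) *
          (∏ j, ‖x j‖ ^ (2 * N - 2)) = _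
        rw [mul_pow, pow_succ τ n]
        field_simp
      rw [h3]
      show _ ≤ (n.factorial : ℝ) * (N / π) ^ n * τ *
        (∏ j, ‖x j‖ ^ (2 * N - 2)) / (∑ j, ‖x j‖ ^ (2 * N) + τ) ^ (n + 1)
      apply div_le_div_of_nonneg_left
      · positivity
      · exact pow_pos (hSpos x) _
      · exact pow_le_pow_left₀ (hSpos x).le hS _
    · push Not at hx
      obtain ⟨j, hj⟩ := hx
      have h1 : ∏ j, gg N τ (x j) = 0 :=
        Finset.prod_eq_zero (Finset.mem_univ j) (Set.indicator_of_notMem hj _)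
      rw [h1, mul_zero]
      exact mul_nonneg (hχ0 x) (hρ0 x)
  have hgint : Integrable (fun x : Cn n => C * ∏ j, gg N τ (x j)) :=
    (Integrable.fintype_prod (f := fun _ : Fin n => gg N τ)
      (fun _ => gg_integrable N hN τ hτ)).const_mul C
  have hmono := integral_mono hgint hint hlow
  refine le_trans (le_of_eq ?_) hmono
  rw [integral_const_mul, integral_fintype_prod_volume_eq_prod (fun _ : Fin n => gg N τ)]
  rw [Finset.prod_const, Finset.card_univ, Fintype.card_fin, gg_integral N hN τ hτ]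
  show _ = (n.factorial : ℝ) * (N / π) ^ n / ((2 * n + 1) ^ (n + 1) * τ ^ n) * (π * τ / N) ^ n
  have h5 : (N / π : ℝ) ^ n * (π * τ / N) ^ n = τ ^ n := by
    rw [← mul_pow]
    congr 1
    field_simp
  have h6 : (n.factorial : ℝ) * (N / π) ^ n / ((2 * n + 1) ^ (n + 1) * τ ^ n) * (π * τ / N) ^ n
      = (n.factorial : ℝ) * ((N / π : ℝ) ^ n * (π * τ / N) ^ n) / ((2 * n + 1) ^ (n + 1) * τ ^ n) := by
    ring
  rw [h6, h5]
  field_simp

end Pool.Agent.Helper87.ZM
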